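import Pool.Agent.Helper140.LT.Rad2

/-!
# Sums of square roots with few squarefree parts are in P/poly

The radicands are written in binary and can be exponentially large, but only polynomially many
squarefree parts occur for each input length.  The advice for input length `N` is a table of natural
numbers with polynomially many digits whose integer combinations have the same signs as those of the
square roots: a vertex of the polyhedron of all real weights with this property (scaled), given by
Cramer's rule.
-/

set_option autoImplicit false

namespace Pool.Agent.Results.MP_dd013b_lc.SmallSquarefreeParts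

open Pool.Agent.NPC Pool.Agent.Helper140.LT

/-- The sum of square roots problem, also with integer coefficients, is in `P/poly` when restricted
to the instances in which every nonzero radicand is a square multiple of an element of `Λ N`, for
prescribed sets `Λ N` of polynomial size (`N` is the length of the instance); in particular for the
instances in which all squarefree parts of radicands are at most `N ^ k + k`. -/
theorem result :
    (∀ (Λ : ℕ → Finset ℕ) (p : Polynomial ℕ), (∀ N, (Λ N).card ≤ p.eval N) →
      InPpoly (lang (SSRIn Λ)) ∧ InPpoly (lang (CombIn Λ))) ∧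
    (∀ k : ℕ, InPpoly (lang fun q : List ℕ × ℤ => SSR q ∧
      ∀ d ∈ q.1, d ≠ 0 → ∃ s ≤ sz q ^ k + k, ∃ m, d = s * m ^ 2)) ∧
    (∀ k : ℕ, InPpoly (lang fun q : List (ℤ × ℕ) × ℤ =>
      (q.2 : ℝ) ≤ (q.1.map fun e => (e.1 : ℝ) * √(e.2 : ℝ)).sum ∧
      ∀ e ∈ q.1, e.2 ≠ 0 → ∃ s ≤ sz q ^ k + k, ∃ m, e.2 = s * m ^ 2)) := by
  have hc : ∀ k N : ℕ, (Finset.range (N ^ k + k + 1)).card ≤
      (Polynomial.X ^ k + (k : Polynomial ℕ) + 1).eval N := by
    intro k N
    rw [Finset.card_range]
    simp
  refine ⟨fun Λ p hΛ => ⟨ssr_inPpoly Λ p hΛ, comb_inPpoly Λ p hΛ⟩, fun k => ?_, fun k => ?_⟩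
  · have h := ssr_inPpoly (fun N => Finset.range (N ^ k + k + 1)) _ (hc k)
    convert h using 2
    funext q
    simp only [SSRIn, Finset.mem_range, Nat.lt_succ_iff]
  · have h := comb_inPpoly (fun N => Finset.range (N ^ k + k + 1)) _ (hc k)
    convert h using 2
    funext q
    simp only [CombIn, Finset.mem_range, Nat.lt_succ_iff]

end Pool.Agent.Results.MP_dd013b_lc.SmallSquarefreeParts
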